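import Pool.Agent.LCI.Stmts

/-!
# Row EPR of squad LCI: Euler derivations are preserving
-/

set_option autoImplicit false

namespace Pool.Agent.LCI.H81

open scoped BigOperators

section
variable {k R K : Type} [Field k] [CommRing R] [Algebra k R] [Field K]
    [Algebra k K] [Algebra R K] {r : ℕ}
    (𝒜 : (Fin r → ℤ) → Submodule k R) [GradedAlgebra 𝒜]

/-- the derivation on an element of `R` -/
theorem on_ring (lam : Fin r → ℤ) (D : Derivation k K K)
    (hD : ∀ (u : Fin r → ℤ) (f : R), f ∈ 𝒜 u →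
      D (algebraMap R K f) = ((∑ i, lam i * u i : ℤ) : K) * algebraMap R K f)
    (I : Ideal R) (hI : ∀ (f : R) (u : Fin r → ℤ), f ∈ I → (DirectSum.decompose 𝒜 f u : R) ∈ I)
    (f : R) (hf : f ∈ I) : ∃ f' ∈ I, D (algebraMap R K f) = algebraMap R K f' := by
  classical
  refine ⟨∑ u ∈ (DirectSum.decompose 𝒜 f).support, ((∑ i, lam i * u i : ℤ) : R) *
    (DirectSum.decompose 𝒜 f u : R), ?_, ?_⟩
  · exact Ideal.sum_mem _ (fun u _ => Ideal.mul_mem_left _ _ (hI f u hf))
  · have h1 : algebraMap R K f = ∑ u ∈ (DirectSum.decompose 𝒜 f).support,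
        algebraMap R K (DirectSum.decompose 𝒜 f u : R) := by
      rw [← map_sum, DirectSum.sum_support_decompose]
    rw [h1, map_sum, map_sum]
    refine Finset.sum_congr rfl (fun u _ => ?_)
    rw [hD u _ (SetLike.coe_mem _), map_mul, map_intCast]

end

theorem epr : EprStmt := by
  intro k R K _ _ _ _ _ _ _ _ _ _ n F l g m a r 𝒜 _ lam D hT hD
  classical
  refine ⟨?_, ?_, ?_, ?_⟩
  · intro f
    obtain ⟨f', -, h⟩ := on_ring 𝒜 lam D hD ⊤ (fun _ _ _ => Submodule.mem_top) f
      Submodule.mem_top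
    exact ⟨f', h⟩
  · intro f hf
    exact on_ring 𝒜 lam D hD m (fun f u hf => hT.max u hf) f hf
  · intro p hp f hf
    exact on_ring 𝒜 lam D hD (a.a p) (fun f u hf => hT.seq p hp u hf) f hf
  · obtain ⟨g1, g2, u1, u2, h1, h2, n1, n2, hg⟩ := hT.canon
    obtain ⟨c1, hc1⟩ : ∃ c : ℤ, c = ∑ i, lam i * u1 i := ⟨_, rfl⟩
    obtain ⟨c2, hc2⟩ : ∃ c : ℤ, c = ∑ i, lam i * u2 i := ⟨_, rfl⟩
    have e1 := hD u1 g1 h1
    have e2 := hD u2 g2 h2
    rw [← hc1] at e1
    rw [← hc2] at e2
    have hG2 : algebraMap R K g2 ≠ 0 := by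
      intro h
      exact n2 ((IsFractionRing.injective R K) (by rw [h, map_zero]))
    have hgG : g * algebraMap R K g2 = algebraMap R K g1 := by
      rw [hg, div_mul_cancel₀ _ hG2]
    have hDg : D g = ((c1 - c2 : ℤ) : K) * g := by
      have h3 : D (g * algebraMap R K g2) = D (algebraMap R K g1) := by rw [hgG]
      rw [Derivation.leibniz, e1, e2, ← hgG, smul_eq_mul, smul_eq_mul] at h3
      have h4 : algebraMap R K g2 * D g = algebraMap R K g2 * (((c1 - c2 : ℤ) : K) * g) := by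
        push_cast
        linear_combination h3
      exact mul_left_cancel₀ hG2 h4
    have hdiv : ∃ C : ℤ, F.div D = (C : K) := by
      have h3 : ∀ i, ∃ c : ℤ, F.d i (D (F.x i)) = (c : K) := by
        intro i
        obtain ⟨y, u, hy, hx⟩ := hT.coord i
        refine ⟨∑ j, lam j * u j, ?_⟩
        rw [hx, hD u y hy, ← hx, ← zsmul_eq_mul, map_zsmul, F.dual i i, if_pos rfl, zsmul_eq_mul,
          mul_one]
      choose c hc using h3
      refine ⟨∑ i, c i, ?_⟩
      unfold Frame.div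
      rw [Finset.sum_congr rfl (fun i _ => hc i)]
      push_cast
      rfl
    obtain ⟨C, hC⟩ := hdiv
    refine ⟨((c1 - c2 + l * C : ℤ) : R), ?_⟩
    rw [map_intCast, hDg, hC]
    push_cast
    ring

end Pool.Agent.LCI.H81
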